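import Pool.Agent.H25.BCE.Stmts

set_option autoImplicit false

namespace Pool.Agent.H69.BCE

open Pool.Agent.H25.BCE
open scoped ContDiff Topology
open Pool.Agent.H73 (P V ex ey pb solA solG mu0 Gam lin)

lemma dk_zero (l j : ℤ) (a b : ℝ × ℝ) : dk l j a b 0 = trn l j a b := by
  rw [dk_apply, map_zero, add_zero]

theorem CEN_thm : CENStmt := by
  have hmu : 0 < mu0 := Pool.Agent.H73.mu0_pos
  intro m a hm h hh hc z s
  obtain ⟨l, j, a', b', ha', hb', rfl⟩ := hh
  rw [dk_mul, dk_mul] at hc
  have h0 := congrArg (fun g : P 3 ≃ᵃ[ℝ] P 3 => g 0) hc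
  simp only [dk_zero] at h0
  have hm' : (1 : ℝ) ≤ (m : ℝ) := by exact_mod_cast hm
  have e1 := congrFun (congrArg Prod.fst h0) 0
  have e2 := congrFun (congrArg Prod.fst h0) 1
  have e3 := congrFun (congrArg Prod.snd h0) 0
  have e4 := congrFun (congrArg Prod.snd h0) 1
  simp only [trn, sc, Matrix.cons_val_zero, Matrix.cons_val_one, Prod.fst_add, Prod.snd_add,
    Prod.fst_zero, Prod.snd_zero, mul_zero, add_zero, zero_add, Int.cast_neg, Int.cast_natCast,
    mul_neg, neg_neg] at e1 e2 e3 e4
  have hpos : 0 < mu0 * (m : ℝ) := by positivity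
  have g1 : 1 < Real.exp (mu0 * (m : ℝ)) := by
    rw [← Real.exp_zero]
    exact Real.exp_lt_exp.2 hpos
  have g2 : Real.exp (-(mu0 * (m : ℝ))) < 1 := by
    rw [← Real.exp_zero]
    exact Real.exp_lt_exp.2 (by linarith)
  have hb1 : b'.1 = 0 := by
    have : b'.1 * (1 - Real.exp (-(mu0 * (m : ℝ)))) = 0 := by linear_combination e3
    rcases mul_eq_zero.1 this with h | h
    · exact h
    · exfalso; linarith
  have hb2 : b'.2 = 0 := by
    have : b'.2 * (1 - Real.exp (mu0 * (m : ℝ))) = 0 := by linear_combination e4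
    rcases mul_eq_zero.1 this with h | h
    · exact h
    · exfalso; linarith
  refine ⟨z + l, j, fun t => ?_⟩
  rw [dk_apply]
  have n1 : 1 - Real.exp (mu0 * (m : ℝ)) ≠ 0 := by linarith
  have n2 : 1 - Real.exp (-(mu0 * (m : ℝ))) ≠ 0 := by linarith
  refine Prod.ext ?_ ?_
  · funext i
    rw [Prod.fst_add, Pi.add_apply, LL_fst]
    fin_cases i
    · simp only [trn, orb, wt, Fin.zero_eta, Matrix.cons_val_zero, mul_one]
      field_simp
      linear_combination e1
    · simp only [trn, orb, wt, Fin.mk_one, Matrix.cons_val_one, Matrix.cons_val_zero, mul_neg,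
        mul_one]
      field_simp
      linear_combination e2
    · simp [trn, orb, wt]
      ring
  · funext i
    rw [Prod.snd_add, Pi.add_apply, LL_snd]
    fin_cases i
    · simp [trn, orb, wt, hb1]
    · simp [trn, orb, wt, hb2]
    · simp [trn, orb, wt]
      ring

end Pool.Agent.H69.BCE
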