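import Pool.Agent.H25.BCE.Stmts

set_option autoImplicit false

namespace Pool.Agent.H69.BCE

open Pool.Agent.H25.BCE
open scoped ContDiff Topology
open Pool.Agent.H73 (P V ex ey pb solA solG mu0 Gam lin)

lemma hasF (hH : ContDiff ℝ ∞ Ham) (x w : P 3) :
    HasFDerivAt (fun y => fderiv ℝ Ham y w)
      ((ContinuousLinearMap.apply ℝ ℝ w).comp (fderiv ℝ (fderiv ℝ Ham) x)) x := by
  have h1 : DifferentiableAt ℝ (fderiv ℝ Ham) x :=
    ((hH.fderiv_right (m := 1) (by norm_cast)).differentiable (by norm_num)).differentiableAt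
  exact (ContinuousLinearMap.apply ℝ ℝ w).hasFDerivAt.comp x h1.hasFDerivAt

theorem DE2_thm (hDE1 : DE1Stmt) (hHAM : HAMStmt) (hFU2 : FU2Stmt) : DE2Stmt := by
  obtain ⟨_, hz, hd⟩ := hDE1
  have hH : ContDiff ℝ ∞ Ham := hHAM.1.1
  have hff : ContDiff ℝ ∞ ff := hFU2.1
  have hzero : ∀ (w : P 3), (∀ x : P 3, fderiv ℝ Ham x w = 0) → ∀ x ξ : P 3,
      fderiv ℝ (fderiv ℝ Ham) x ξ w = 0 := by
    intro w hw x ξ
    have h1 := hasF hH x w
    have h2 : (fun y => fderiv ℝ Ham y w) = fun _ => (0 : ℝ) := funext hw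
    rw [h2] at h1
    have h3 := h1.unique (hasFDerivAt_const (0 : ℝ) x)
    have h4 := congrArg (fun T : P 3 →L[ℝ] ℝ => T ξ) h3
    simpa using h4
  refine ⟨fun x ξ => ⟨hzero _ (fun y => (hz y).1) x ξ, hzero _ (fun y => (hz y).2) x ξ⟩, ?_⟩
  intro x ξ hx0 hx1 hξ0 hξ1 w
  have hline : HasDerivAt (fun τ : ℝ => x + τ • ξ) ξ 0 := by
    have := ((hasDerivAt_id (0 : ℝ)).smul_const ξ).const_add x
    simpa using this
  have h1 : HasDerivAt (fun τ : ℝ => fderiv ℝ Ham (x + τ • ξ) w)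
      (fderiv ℝ (fderiv ℝ Ham) x ξ w) 0 := by
    have hx : x + (0 : ℝ) • ξ = x := by simp
    have h2 := hasF hH (x + (0 : ℝ) • ξ) w
    have h3 := h2.comp_hasDerivAt (0 : ℝ) hline
    rw [hx, Function.comp_def] at h3
    exact h3
  have h4 : (fun τ : ℝ => fderiv ℝ Ham (x + τ • ξ) w) =
      fun τ : ℝ => deriv ff (x.2 2 + τ * ξ.2 2) * w.2 2 := by
    funext τ
    rw [hd (x + τ • ξ) (by simp [hx0, hξ0]) (by simp [hx1, hξ1]) w]
    simp
  have hd2 : DifferentiableAt ℝ (deriv ff) (x.2 2) := by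
    have h5 : ContDiff ℝ ∞ (deriv ff) := by
      have := hff.iterate_deriv 1
      simpa using this
    exact (h5.differentiable (by norm_num)).differentiableAt
  have h6 : HasDerivAt (fun τ : ℝ => deriv ff (x.2 2 + τ * ξ.2 2) * w.2 2)
      (deriv (deriv ff) (x.2 2) * ξ.2 2 * w.2 2) 0 := by
    have h7 : HasDerivAt (fun τ : ℝ => x.2 2 + τ * ξ.2 2) (ξ.2 2) 0 := by
      have := ((hasDerivAt_id (0 : ℝ)).mul_const (ξ.2 2)).const_add (x.2 2)
      simpa using this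
    have h8 : HasDerivAt (deriv ff) (deriv (deriv ff) (x.2 2)) (x.2 2 + (0 : ℝ) * ξ.2 2) := by
      have := hd2.hasDerivAt
      simpa using this
    exact (HasDerivAt.comp (0 : ℝ) h8 h7).mul_const (w.2 2)
  rw [h4] at h1
  exact h1.unique h6

end Pool.Agent.H69.BCE
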